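import Pool.Agent.Y920.ETC.Stm3

/-!
# The maximal 2-extension inside the algebraic closure
-/

set_option autoImplicit false

open IntermediateField Pool.Agent.Y920.ETC

namespace Pool.Agent.Y37.ET

section

variable {F E : Type*} [Field F] [Field E] [Algebra F E]

/-- finite Galois extensions of 2-power degree -/
def Tw (L : IntermediateField F E) : Prop :=
  FiniteDimensional F L ∧ IsGalois F L ∧ ∃ k : ℕ, Module.finrank F L = 2 ^ k

/-- the degree of a finite Galois intermediate field of a normal extension is an index -/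
lemma finrank_eq_index [Normal F E] (L : IntermediateField F E) [FiniteDimensional F L]
    [IsGalois F L] : Module.finrank F L = L.fixingSubgroup.index := by
  rw [← IntermediateField.restrictNormalHom_ker L, Subgroup.index_ker,
    MonoidHom.range_eq_top.2 (AlgEquiv.restrictNormalHom_surjective (F := F) (K₁ := L) E),
    Subgroup.card_top, IsGalois.card_aut_eq_finrank]

lemma Tw_sup [Normal F E] {L₁ L₂ : IntermediateField F E} (h1 : Tw L₁) (h2 : Tw L₂) :
    Tw (L₁ ⊔ L₂) := by
  obtain ⟨f1, g1, k1, e1⟩ := h1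
  obtain ⟨f2, g2, k2, e2⟩ := h2
  have := f1
  have := f2
  have := g1
  have := g2
  have hfd : FiniteDimensional F (L₁ ⊔ L₂ : IntermediateField F E) := inferInstance
  have hg : IsGalois F (L₁ ⊔ L₂ : IntermediateField F E) := {
    to_isSeparable := inferInstance
    to_normal := inferInstance }
  refine ⟨hfd, hg, ?_⟩
  rw [finrank_eq_index] at e1 e2 ⊢
  rw [IntermediateField.fixingSubgroup_sup]
  have : (L₁.fixingSubgroup).Normal := by
    rw [← IntermediateField.restrictNormalHom_ker L₁]
    infer_instance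
  have h3 : (L₁.fixingSubgroup ⊓ L₂.fixingSubgroup).index ∣ 2 ^ (k1 + k2) := by
    have h4 := Subgroup.relIndex_mul_index (inf_le_right : L₁.fixingSubgroup ⊓ L₂.fixingSubgroup ≤
      L₂.fixingSubgroup)
    rw [← h4, Subgroup.inf_relIndex_right, pow_add, ← e1, ← e2]
    exact Nat.mul_dvd_mul (Subgroup.relIndex_dvd_index_of_normal _ _) dvd_rfl
  obtain ⟨k, _, hk⟩ := (Nat.dvd_prime_pow Nat.prime_two).1 h3
  exact ⟨k, hk⟩

lemma Tw_bot : Tw (⊥ : IntermediateField F E) := by
  refine ⟨inferInstance, ?_, 0, ?_⟩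
  · infer_instance
  · rw [IntermediateField.finrank_bot, pow_zero]

/-- square roots -/
lemma Tw_sqrt (h2 : (2 : F) ≠ 0) (y : E) (c : F) (hy : y ^ 2 = algebraMap F E c) :
    Tw (F⟮y⟯) := by
  by_cases hmem : y ∈ (⊥ : IntermediateField F E)
  · rw [IntermediateField.adjoin_simple_eq_bot_iff.2 hmem]
    exact Tw_bot
  have hc : c ≠ 0 := by
    rintro rfl
    rw [map_zero, pow_eq_zero_iff two_ne_zero] at hy
    rw [hy] at hmem
    exact hmem (zero_mem _)
  have hmon : (Polynomial.X ^ 2 - Polynomial.C c : Polynomial F).Monic :=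
    Polynomial.monic_X_pow_sub_C c two_ne_zero
  have hroot : Polynomial.aeval y (Polynomial.X ^ 2 - Polynomial.C c : Polynomial F) = 0 := by
    simp [hy]
  have hint : IsIntegral F y := ⟨_, hmon, by rwa [← Polynomial.aeval_def]⟩
  have hdvd : minpoly F y ∣ (Polynomial.X ^ 2 - Polynomial.C c : Polynomial F) :=
    minpoly.dvd F y hroot
  have hsep : (Polynomial.X ^ 2 - Polynomial.C c : Polynomial F).Separable :=
    Polynomial.separable_X_pow_sub_C c (by exact_mod_cast h2) hc
  have hys : IsSeparable F y := hsep.of_dvd hdvd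
  have : FiniteDimensional F F⟮y⟯ := IntermediateField.adjoin.finiteDimensional hint
  have hrank : Module.finrank F F⟮y⟯ = 2 := by
    have h5 : Module.finrank F F⟮y⟯ = (minpoly F y).natDegree :=
      IntermediateField.adjoin.finrank hint
    have h6 : (minpoly F y).natDegree ≤ 2 := by
      have := Polynomial.natDegree_le_of_dvd hdvd hmon.ne_zero
      rwa [Polynomial.natDegree_X_pow_sub_C] at this
    have h7 : Module.finrank F F⟮y⟯ ≠ 1 := by
      intro h
      rw [IntermediateField.finrank_eq_one_iff, IntermediateField.adjoin_simple_eq_bot_iff] at h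
      exact hmem h
    have h8 : 0 < Module.finrank F F⟮y⟯ := Module.finrank_pos
    omega
  have : Algebra.IsQuadraticExtension F F⟮y⟯ := ⟨hrank⟩
  have : Algebra.IsSeparable F F⟮y⟯ := (IntermediateField.isSeparable_adjoin_simple_iff_isSeparable
    F E).2 hys
  exact ⟨inferInstance, inferInstance, 1, by rw [hrank, pow_one]⟩

end

theorem t_MAX2 : S_MAX2 := by
  intro F _ h2 K hK
  obtain ⟨S, hS⟩ : ∃ S : Set (IntermediateField F (AlgebraicClosure F)), S = {L | Tw L} := ⟨_, rfl⟩
  have hK' : K = ⨆ L : S, L.1 := by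
    rw [hK, hS, ← sSup_eq_iSup']
    rfl
  have hmem : ∀ L : IntermediateField F (AlgebraicClosure F), L ∈ S ↔ Tw L := by
    intro L
    rw [hS]
    rfl
  have hST : ∀ L : S, Tw L.1 := fun L => (hmem _).1 L.2
  have hle : ∀ L : IntermediateField F (AlgebraicClosure F), Tw L → L ≤ K := by
    intro L hL
    rw [hK']
    exact le_iSup (fun L : S => L.1) ⟨L, (hmem _).2 hL⟩
  have hne : Nonempty S := ⟨⟨⊥, (hmem _).2 Tw_bot⟩⟩
  have hdir : Directed (· ≤ ·) fun L : S => L.1 := by
    intro L₁ L₂
    refine ⟨⟨L₁.1 ⊔ L₂.1, ?_⟩, le_sup_left, le_sup_right⟩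
    exact (hmem _).2 (Tw_sup (hST L₁) (hST L₂))
  refine ⟨?_, ?_, ?_⟩
  · rw [hK']
    have : ∀ L : S, Normal F L.1 := fun L => by
      have := (hST L).2.1
      infer_instance
    have : ∀ L : S, Algebra.IsSeparable F L.1 := fun L => by
      have := (hST L).2.1
      infer_instance
    exact { to_isSeparable := inferInstance, to_normal := inferInstance }
  · intro x
    have hx : (x : AlgebraicClosure F) ∈ ((⨆ L : S, L.1 : IntermediateField F (AlgebraicClosure F)) :
        Set (AlgebraicClosure F)) := by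
      rw [← hK']
      exact x.2
    rw [IntermediateField.coe_iSup_of_directed hdir, Set.mem_iUnion] at hx
    obtain ⟨L, hxL⟩ := hx
    have hLK : L.1 ≤ K := hle _ (hST L)
    obtain ⟨f1, g1, k, e1⟩ := hST L
    have := f1
    have := g1
    let e := IntermediateField.restrictAlgEquiv hLK
    refine ⟨IntermediateField.restrict hLK, ?_, ?_, ?_, k, ?_⟩
    · rw [IntermediateField.mem_restrict]
      exact hxL
    · exact LinearEquiv.finiteDimensional e.toLinearEquiv
    · exact IsGalois.of_algEquiv e
    · rw [← e1]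
      exact (LinearEquiv.finrank_eq e.toLinearEquiv).symm
  · intro c
    obtain ⟨y, hy⟩ := IsAlgClosed.exists_pow_nat_eq (algebraMap F (AlgebraicClosure F) c)
      (n := 2) (by norm_num)
    have hyK : y ∈ K := hle _ (Tw_sqrt h2 y c hy) (IntermediateField.mem_adjoin_simple_self F y)
    refine ⟨⟨y, hyK⟩, ?_⟩
    apply Subtype.ext
    exact hy

end Pool.Agent.Y37.ET
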